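import Pool.Agent.helper31.IC.EngD

/-!
# IX: programs with balls

Programs as in `IA`/`IC` with two more operations: `ball i B` is any complex number at distance at
most `B/2^40` from the value `i`; `rball i j` is any complex number at distance at most `‖value j‖`
from the value `i`.
-/

namespace Pool.Agent.helper31.IX

open Complex
open Pool.Agent.helper31.IA (Z get Small RealL InBox T lo hi canSplit)
open Pool.Agent.helper31.IC (Ops Laws nthG mem_nthG verifyG TD nthC verifyD length_lo length_hi)

inductive Op where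
  | const (z : Z)
  | add (i j : Nat)
  | sub (i j : Nat)
  | mul (i j : Nat)
  | scale (z : Z) (i : Nat)
  | neg (i : Nat)
  | inv (i : Nat)
  | exp (i : Nat)
  | log (i : Nat)
  | pos (i : Nat)
  | lt (i B : Nat)
  | ball (i B : Nat)
  | rball (i j : Nat)
deriving Repr, Inhabited

/-- what a successful run proves -/
def Asserts : List Op → List ℂ → Prop
  | [], _ => True
  | Op.const z :: t, m => ∀ v, v = z.val → Asserts t (v :: m)
  | Op.add i j :: t, m => ∀ v, v = get m i + get m j → Asserts t (v :: m)
  | Op.sub i j :: t, m => ∀ v, v = get m i - get m j → Asserts t (v :: m)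
  | Op.mul i j :: t, m => ∀ v, v = get m i * get m j → Asserts t (v :: m)
  | Op.scale z i :: t, m => ∀ v, v = z.val * get m i → Asserts t (v :: m)
  | Op.neg i :: t, m => ∀ v, v = -get m i → Asserts t (v :: m)
  | Op.inv i :: t, m => get m i ≠ 0 ∧ ∀ v, v = (get m i)⁻¹ → Asserts t (v :: m)
  | Op.exp i :: t, m => ∀ v, v = Complex.exp (get m i) → Asserts t (v :: m)
  | Op.log i :: t, m => get m i ∈ slitPlane ∧ ∀ v, v = Complex.log (get m i) → Asserts t (v :: m)
  | Op.pos i :: t, m => 0 < (get m i).re ∧ Asserts t m
  | Op.lt i B :: t, m => ‖get m i‖ < (B : ℝ) / 2 ^ 40 ∧ Asserts t m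
  | Op.ball i B :: t, m => ∀ v, ‖v - get m i‖ ≤ (B : ℝ) / 2 ^ 40 → Asserts t (v :: m)
  | Op.rball i j :: t, m => ∀ v, ‖v - get m i‖ ≤ ‖get m j‖ → Asserts t (v :: m)

/-- an engine with balls -/
structure XOps where
  O : Ops
  ball : Nat → O.α → O.α
  rball : O.α → O.α → O.α

/-- run a program; `nr` is the number of real noise symbols -/
def runX (X : XOps) (nr : Nat) : List Op → List X.O.α → Bool
  | [], _ => true
  | Op.const z :: t, m => let v := X.O.cst z; X.O.ok v && runX X nr t (v :: m)
  | Op.add i j :: t, m =>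
      let v := X.O.add (nthG X.O m i) (nthG X.O m j); X.O.ok v && runX X nr t (v :: m)
  | Op.sub i j :: t, m =>
      let v := X.O.sub (nthG X.O m i) (nthG X.O m j); X.O.ok v && runX X nr t (v :: m)
  | Op.mul i j :: t, m =>
      let v := X.O.mul (nthG X.O m i) (nthG X.O m j); X.O.ok v && runX X nr t (v :: m)
  | Op.scale z i :: t, m => let v := X.O.scale z (nthG X.O m i); X.O.ok v && runX X nr t (v :: m)
  | Op.neg i :: t, m => let v := X.O.neg (nthG X.O m i); X.O.ok v && runX X nr t (v :: m)
  | Op.inv i :: t, m => let v := X.O.inv (nthG X.O m i); X.O.ok v && runX X nr t (v :: m)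
  | Op.exp i :: t, m => let v := X.O.exp (nthG X.O m i); X.O.ok v && runX X nr t (v :: m)
  | Op.log i :: t, m => let v := X.O.log (nthG X.O m i); X.O.ok v && runX X nr t (v :: m)
  | Op.pos i :: t, m => X.O.isPos nr (nthG X.O m i) && runX X nr t m
  | Op.lt i B :: t, m => X.O.isLt (nthG X.O m i) B && runX X nr t m
  | Op.ball i B :: t, m => let v := X.ball B (nthG X.O m i); X.O.ok v && runX X nr t (v :: m)
  | Op.rball i j :: t, m =>
      let v := X.rball (nthG X.O m i) (nthG X.O m j); X.O.ok v && runX X nr t (v :: m)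

/-- soundness of an engine with balls -/
structure XLaws (X : XOps) where
  L : Laws X.O
  ball : ∀ {ε : List ℂ}, Small ε → ∀ {x : X.O.α} {u v : ℂ} {B : Nat}, L.Mem ε x u →
    ‖v - u‖ ≤ (B : ℝ) / 2 ^ 40 → X.O.ok (X.ball B x) = true → L.Mem ε (X.ball B x) v
  rball : ∀ {ε : List ℂ}, Small ε → ∀ {x y : X.O.α} {u v w : ℂ}, L.Mem ε x u → L.Mem ε y w →
    ‖v - u‖ ≤ ‖w‖ → X.O.ok (X.rball x y) = true → L.Mem ε (X.rball x y) v

/-- **Soundness of a run.** -/
theorem runX_sound {X : XOps} (XL : XLaws X) {nr : Nat} {ε : List ℂ} (hε : Small ε)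
    (hr : RealL nr ε) : ∀ (ops : List Op) (m : List X.O.α) (v : List ℂ),
      List.Forall₂ (XL.L.Mem ε) m v → runX X nr ops m = true → Asserts ops v := by
  intro ops
  induction ops with
  | nil =>
    intro m v _ _
    trivial
  | cons op t ih =>
    intro m v hm h
    have L := XL.L
    cases op with
    | const z =>
      intro w hw
      subst hw
      have h' := (Bool.and_eq_true _ _).mp h
      exact ih _ _ (List.Forall₂.cons (XL.L.cst hε z h'.1) hm) h'.2
    | add i j =>
      intro w hw
      subst hw
      have h' := (Bool.and_eq_true _ _).mp h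
      exact ih _ _ (List.Forall₂.cons (XL.L.add hε (mem_nthG XL.L hm i) (mem_nthG XL.L hm j) h'.1)
        hm) h'.2
    | sub i j =>
      intro w hw
      subst hw
      have h' := (Bool.and_eq_true _ _).mp h
      exact ih _ _ (List.Forall₂.cons (XL.L.sub hε (mem_nthG XL.L hm i) (mem_nthG XL.L hm j) h'.1)
        hm) h'.2
    | mul i j =>
      intro w hw
      subst hw
      have h' := (Bool.and_eq_true _ _).mp h
      exact ih _ _ (List.Forall₂.cons (XL.L.mul hε (mem_nthG XL.L hm i) (mem_nthG XL.L hm j) h'.1)
        hm) h'.2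
    | scale z i =>
      intro w hw
      subst hw
      have h' := (Bool.and_eq_true _ _).mp h
      exact ih _ _ (List.Forall₂.cons (XL.L.scale hε z (mem_nthG XL.L hm i) h'.1) hm) h'.2
    | neg i =>
      intro w hw
      subst hw
      have h' := (Bool.and_eq_true _ _).mp h
      exact ih _ _ (List.Forall₂.cons (XL.L.neg hε (mem_nthG XL.L hm i) h'.1) hm) h'.2
    | inv i =>
      have h' := (Bool.and_eq_true _ _).mp h
      have h1 := XL.L.inv hε (mem_nthG XL.L hm i) h'.1
      refine ⟨h1.1, ?_⟩
      intro w hw
      subst hw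
      exact ih _ _ (List.Forall₂.cons h1.2 hm) h'.2
    | exp i =>
      intro w hw
      subst hw
      have h' := (Bool.and_eq_true _ _).mp h
      exact ih _ _ (List.Forall₂.cons (XL.L.exp hε (mem_nthG XL.L hm i) h'.1) hm) h'.2
    | log i =>
      have h' := (Bool.and_eq_true _ _).mp h
      have h1 := XL.L.log hε (mem_nthG XL.L hm i) h'.1
      refine ⟨h1.1, ?_⟩
      intro w hw
      subst hw
      exact ih _ _ (List.Forall₂.cons h1.2 hm) h'.2
    | pos i =>
      have h' := (Bool.and_eq_true _ _).mp h
      exact ⟨XL.L.isPos hε hr (mem_nthG XL.L hm i) h'.1, ih _ _ hm h'.2⟩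
    | lt i B =>
      have h' := (Bool.and_eq_true _ _).mp h
      exact ⟨XL.L.isLt hε (mem_nthG XL.L hm i) h'.1, ih _ _ hm h'.2⟩
    | ball i B =>
      intro w hw
      have h' := (Bool.and_eq_true _ _).mp h
      exact ih _ _ (List.Forall₂.cons (XL.ball hε (mem_nthG XL.L hm i) hw h'.1) hm) h'.2
    | rball i j =>
      intro w hw
      have h' := (Bool.and_eq_true _ _).mp h
      exact ih _ _ (List.Forall₂.cons (XL.rball hε (mem_nthG XL.L hm i) (mem_nthG XL.L hm j) hw h'.1)
        hm) h'.2

/-- The assertions of `ops` hold for all real points of the box and all `nd` complex numbers of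
the closed unit disc. -/
def Cov (nd : Nat) (ops : List Op) (box : List (Nat × Nat)) : Prop :=
  ∀ (u : List ℝ) (x : List ℂ), InBox box u → x.length = nd → (∀ z ∈ x, ‖z‖ ≤ 1) →
    Asserts ops (u.map (fun t : ℝ => (t : ℂ)) ++ x)

/-- at every point one of the programs asserts -/
def CovD (nd : Nat) (progs : List (List Op)) (box : List (Nat × Nat)) : Prop :=
  ∀ (u : List ℝ) (x : List ℂ), InBox box u → x.length = nd → (∀ z ∈ x, ‖z‖ ≤ 1) →
    ∃ ops ∈ progs, Asserts ops (u.map (fun t : ℝ => (t : ℂ)) ++ x)

theorem x_split {box : List (Nat × Nat)} {u : List ℝ} (h : InBox box u) :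
    ∀ i, canSplit i box = true → InBox (lo i box) u ∨ InBox (hi i box) u := by
  unfold InBox at h ⊢
  induction h with
  | nil =>
    intro i hi
    cases i <;> simp [canSplit] at hi
  | @cons b t bs ts hbt hrest ih =>
    intro i hi
    cases i with
    | zero =>
      obtain ⟨c, h⟩ := b
      simp only [canSplit, Bool.and_eq_true] at hi
      obtain ⟨h1, h2⟩ := hi
      have h1' : 2 * (h / 2) = h := Nat.eq_of_beq_eq_true h1
      have h2' : h ≤ c := Nat.le_of_ble_eq_true h2
      obtain ⟨k, hk⟩ : ∃ k, k = h / 2 := ⟨_, rfl⟩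
      have hlo : lo 0 ((c, h) :: bs) = (c - k, k) :: bs := by rw [hk]; rfl
      have hhi : Pool.Agent.helper31.IA.hi 0 ((c, h) :: bs) = (c + k, k) :: bs := by rw [hk]; rfl
      rw [hlo, hhi]
      rw [← hk] at h1'
      have hkc : k ≤ c := by omega
      have e1 : (h : ℝ) = 2 * k := by exact_mod_cast h1'.symm
      simp only at hbt
      rw [e1] at hbt
      have h3 := abs_le.1 hbt
      have e2 : (2 * (k : ℝ)) / 2 ^ 40 = 2 * ((k : ℝ) / 2 ^ 40) := by ring
      rw [e2] at h3
      rcases le_total t ((c : ℝ) / 2 ^ 40) with h4 | h4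
      · left
        refine List.Forall₂.cons ?_ hrest
        simp only
        rw [Nat.cast_sub hkc, sub_div, abs_le]
        constructor <;> linarith [h3.1, h3.2]
      · right
        refine List.Forall₂.cons ?_ hrest
        simp only
        rw [Nat.cast_add, add_div, abs_le]
        constructor <;> linarith [h3.1, h3.2]
    | succ n =>
      have hi' : canSplit n bs = true := hi
      rcases ih n hi' with h1 | h1
      · left
        exact List.Forall₂.cons hbt h1
      · right
        exact List.Forall₂.cons hbt h1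

theorem cov_split {nd : Nat} {ops : List Op} {box : List (Nat × Nat)} (i : Nat)
    (hs : canSplit i box = true) (h1 : Cov nd ops (lo i box)) (h2 : Cov nd ops (hi i box)) :
    Cov nd ops box := by
  intro u x hu hx hx1
  rcases x_split hu i hs with h | h
  · exact h1 u x h hx hx1
  · exact h2 u x h hx hx1

theorem covD_split {nd : Nat} {progs : List (List Op)} {box : List (Nat × Nat)} (i : Nat)
    (hs : canSplit i box = true) (h1 : CovD nd progs (lo i box)) (h2 : CovD nd progs (hi i box)) :
    CovD nd progs box := by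
  intro u x hu hx hx1
  rcases x_split hu i hs with h | h
  · exact h1 u x h hx hx1
  · exact h2 u x h hx hx1

theorem covD_of_cov {nd : Nat} {progs : List (List Op)} {ops : List Op} (h : ops ∈ progs)
    {box : List (Nat × Nat)} (hc : Cov nd ops box) : CovD nd progs box :=
  fun u x hu hx h1 => ⟨ops, h, hc u x hu hx h1⟩

/-- **Main theorem.** -/
theorem cov_of_verify {X : XOps} (XL : XLaws X) {nr nd : Nat} {ops : List Op}
    {chk : List X.O.α → Bool} (hchk : ∀ m, chk m = true → runX X nr ops m = true) :
    ∀ (t : T) (box : List (Nat × Nat)), box.length = nr →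
      verifyG X.O XL.L.okBox nd chk t box = true → Cov nd ops box := by
  intro t
  induction t with
  | l =>
    intro box hlen h
    have h' := (Bool.and_eq_true _ _).mp h
    intro u x hu hx hs
    obtain ⟨ε, hε, hr, hm⟩ := XL.L.models box nd u x h'.1 hu hx hs
    rw [hlen] at hr
    exact runX_sound XL hε hr ops _ _ hm (hchk _ h'.2)
  | n i a b iha ihb =>
    intro box hlen h
    simp only [verifyG, Bool.and_eq_true] at h
    exact cov_split i h.1.1
      (iha _ ((length_lo i box).trans hlen) h.1.2) (ihb _ ((length_hi i box).trans hlen) h.2)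

private theorem x_nthC {X : XOps} {nr : Nat} {m : List X.O.α} {progs : List (List Op)}
    {chks : List (List X.O.α → Bool)}
    (hchk : List.Forall₂ (fun (ops : List Op) (chk : List X.O.α → Bool) =>
      ∀ m, chk m = true → runX X nr ops m = true) progs chks) :
    ∀ k, nthC chks k m = true → ∃ ops ∈ progs, runX X nr ops m = true := by
  induction hchk with
  | nil =>
    intro k hk
    exact absurd hk Bool.false_ne_true
  | @cons ops chk ps cs h0 _ ih =>
    intro k hk
    cases k with
    | zero => exact ⟨ops, List.mem_cons_self, h0 m hk⟩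
    | succ n =>
      obtain ⟨o, ho, hr⟩ := ih n hk
      exact ⟨o, List.mem_cons_of_mem _ ho, hr⟩

/-- **Main theorem.**  `chks` are compiled forms of the programs. -/
theorem covD_of_verify {X : XOps} (XL : XLaws X) {nr nd : Nat} {progs : List (List Op)}
    {chks : List (List X.O.α → Bool)}
    (hchk : List.Forall₂ (fun (ops : List Op) (chk : List X.O.α → Bool) =>
      ∀ m, chk m = true → runX X nr ops m = true) progs chks) :
    ∀ (t : TD) (box : List (Nat × Nat)), box.length = nr →
      verifyD X.O XL.L.okBox nd chks t box = true → CovD nd progs box := by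
  intro t
  induction t with
  | l k =>
    intro box hlen h
    have h' := (Bool.and_eq_true _ _).mp h
    intro u x hu hx hs
    obtain ⟨ε, hε, hr, hm⟩ := XL.L.models box nd u x h'.1 hu hx hs
    rw [hlen] at hr
    obtain ⟨ops, ho, hrun⟩ := x_nthC hchk k h'.2
    exact ⟨ops, ho, runX_sound XL hε hr ops _ _ hm hrun⟩
  | n i a b iha ihb =>
    intro box hlen h
    simp only [verifyD, Bool.and_eq_true] at h
    exact covD_split i h.1.1
      (iha _ ((length_lo i box).trans hlen) h.1.2) (ihb _ ((length_hi i box).trans hlen) h.2)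

end Pool.Agent.helper31.IX
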