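import Pool.Agent.helper31.IF.Inst
import Pool.Agent.helper31.IX.Eng

/-!
# IX: the packed affine engine with balls
-/

namespace Pool.Agent.helper31.IX

open Complex
open Pool.Agent.helper31.IA (Z Small get RealL)
open Pool.Agent.helper31.IB (A Mem MemC lin bz dmag m512 Clean One clean_head bz_head clean_mono
  clean_of_one dmag_spec okB)
open Pool.Agent.helper31.IF (opsF lawsF_mem)

def ballF (B : Nat) (x : A) : A := ⟨x.X, Nat.add x.D B, Nat.add x.r B, x.ok⟩

def rballF (x y : A) : A :=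
  let B := Nat.add (dmag (Nat.land y.X m512)) y.D
  ⟨x.X, Nat.add x.D B, Nat.add x.r B, x.ok && y.ok⟩

private theorem add_ball {ε : List ℂ} {x : A} {u v : ℂ} {B : Nat} {b : Bool} (hx : MemC ε x u)
    (h : ‖v - u‖ ≤ (B : ℝ) / 2 ^ 40) :
    MemC ε ⟨x.X, Nat.add x.D B, Nat.add x.r B, b⟩ v := by
  refine ⟨hx.clean, ?_, ?_⟩
  · have h1 := hx.dev
    have h2 : ((Nat.add x.D B : ℕ) : ℝ) = (x.D : ℝ) + B := Nat.cast_add _ _
    have h3 : ((Nat.add x.r B : ℕ) : ℝ) = (x.r : ℝ) + B := Nat.cast_add _ _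
    show _ + ((Nat.add x.r B : ℕ) : ℝ) ≤ ((Nat.add x.D B : ℕ) : ℝ)
    rw [h2, h3]
    linarith
  · have h1 := hx.mem
    have h3 : ((Nat.add x.r B : ℕ) : ℝ) = (x.r : ℝ) + B := Nat.cast_add _ _
    show ‖v - (bz x.X 0 + lin x.X ε)‖ ≤ ((Nat.add x.r B : ℕ) : ℝ) / 2 ^ 40
    rw [h3, add_div]
    have h4 : v - (bz x.X 0 + lin x.X ε) = (u - (bz x.X 0 + lin x.X ε)) + (v - u) := by ring
    rw [h4]
    exact (norm_add_le _ _).trans (add_le_add h1 h)

theorem norm_le {ε : List ℂ} (hε : Small ε) {y : A} {w : ℂ} (hy : MemC ε y w) :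
    ‖w‖ ≤ ((Nat.add (dmag (Nat.land y.X m512)) y.D : ℕ) : ℝ) / 2 ^ 40 := by
  obtain ⟨ρ, hz, -, -, hD⟩ := hy.split hε
  have h1 : One (2 ^ 62) (Nat.land y.X m512) := clean_head hy.clean
  have h2 := dmag_spec (clean_mono (clean_of_one h1) (by norm_num : 2 ^ 62 ≤ 2 ^ 90))
  have h3 : ‖bz (Nat.land y.X m512) 0‖ ≤ ∑ j ∈ Finset.range 8, ‖bz (Nat.land y.X m512) j‖ :=
    Finset.single_le_sum (f := fun j => ‖bz (Nat.land y.X m512) j‖) (fun j _ => norm_nonneg _)
      (Finset.mem_range.mpr (by norm_num))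
  have h4 : ‖bz y.X 0‖ ≤ (dmag (Nat.land y.X m512) : ℝ) / 2 ^ 40 := by
    rw [le_div_iff₀ (by positivity), ← bz_head y.X]
    exact (mul_le_mul_of_nonneg_right h3 (by positivity)).trans h2
  have h5 : ((Nat.add (dmag (Nat.land y.X m512)) y.D : ℕ) : ℝ) =
      (dmag (Nat.land y.X m512) : ℝ) + y.D := Nat.cast_add _ _
  rw [hz, h5, add_div]
  exact (norm_add_le _ _).trans (add_le_add h4 hD)

def xF : XOps := ⟨opsF, ballF, rballF⟩

theorem xlawsF : ∃ XL : XLaws xF, XL.L.okBox = okB := by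
  obtain ⟨L, hM, hok⟩ := lawsF_mem
  refine ⟨⟨L, ?_, ?_⟩, hok⟩
  · intro ε hε x u v B hx h _
    rw [hM] at hx ⊢
    intro hok'
    exact add_ball (hx hok') h
  · intro ε hε x y u v w hx hy h _
    rw [hM] at hx hy ⊢
    intro hok'
    have hok2 : (x.ok && y.ok) = true := hok'
    rw [Bool.and_eq_true] at hok2
    exact add_ball (hx hok2.1) (h.trans (norm_le hε (hy hok2.2)))

theorem cov_F {nr nd : Nat} {ops : List Op} {chk : List A → Bool}
    (hchk : ∀ m, chk m = true → runX xF nr ops m = true) (t : IA.T)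
    (box : List (Nat × Nat)) (hb : box.length = nr)
    (h : IC.verifyG opsF okB nd chk t box = true) : Cov nd ops box := by
  obtain ⟨XL, hok⟩ := xlawsF
  refine cov_of_verify XL hchk t box hb ?_
  rw [hok]
  exact h

theorem covD_F {nr nd : Nat} {progs : List (List Op)} {chks : List (List A → Bool)}
    (hchk : List.Forall₂ (fun (ops : List Op) (chk : List A → Bool) =>
      ∀ m, chk m = true → runX xF nr ops m = true) progs chks) (t : IC.TD)
    (box : List (Nat × Nat)) (hb : box.length = nr)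
    (h : IC.verifyD opsF okB nd chks t box = true) : CovD nd progs box := by
  obtain ⟨XL, hok⟩ := xlawsF
  refine covD_of_verify XL hchk t box hb ?_
  rw [hok]
  exact h

end Pool.Agent.helper31.IX
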