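import Pool.Agent.helper14.QF.Inst
import Pool.Agent.helper31.IX.Eng

/-!
# IX: the second order engine modulo a Fermat number, with balls
-/

namespace Pool.Agent.helper31.IX.QF

open Complex
open Pool.Agent.helper31.IA (Z Small get RealL)
open Pool.Agent.helper14.QF

def ballA (B : Nat) (x : A) : A := ⟨x.X, x.m, x.G, Nat.add x.D B, Nat.add x.r B, x.ok⟩

def rballA (x y : A) : A :=
  let B := Nat.add y.m y.D
  ⟨x.X, x.m, x.G, Nat.add x.D B, Nat.add x.r B, x.ok && y.ok⟩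

private theorem add_ball {ε : List ℂ} {x : A} {u v : ℂ} {B : Nat} {b : Bool} (hx : MemC ε x u)
    (h : ‖v - u‖ ≤ (B : ℝ) / 2 ^ 40) :
    MemC ε ⟨x.X, x.m, x.G, Nat.add x.D B, Nat.add x.r B, b⟩ v := by
  have h2 : ((Nat.add x.D B : ℕ) : ℝ) = (x.D : ℝ) + B := Nat.cast_add _ _
  have h3 : ((Nat.add x.r B : ℕ) : ℝ) = (x.r : ℝ) + B := Nat.cast_add _ _
  refine ⟨hx.good, hx.cenb, hx.linb, ?_, ?_⟩
  · have h1 := hx.dev
    show _ + ((Nat.add x.r B : ℕ) : ℝ) ≤ ((Nat.add x.D B : ℕ) : ℝ)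
    rw [h2, h3]
    linarith
  · have h1 := hx.mem
    show ‖v * 2 ^ 40 - ev (cd x.X) ε‖ ≤ ((Nat.add x.r B : ℕ) : ℝ)
    rw [h3]
    have h4 : v * 2 ^ 40 - ev (cd x.X) ε = (u * 2 ^ 40 - ev (cd x.X) ε) + (v - u) * 2 ^ 40 := by
      ring
    have h5 : ‖(v - u) * 2 ^ 40‖ ≤ (B : ℝ) := by
      rw [norm_mul]
      have h6 : ‖(2 : ℂ) ^ 40‖ = 2 ^ 40 := by simp
      rw [h6, ← le_div_iff₀ (by positivity)]
      exact h
    rw [h4]
    exact (norm_add_le _ _).trans (add_le_add h1 h5)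

theorem norm_le {ε : List ℂ} (hε : Small ε) {y : A} {w : ℂ} (hy : MemC ε y w) :
    ‖w‖ ≤ ((Nat.add y.m y.D : ℕ) : ℝ) / 2 ^ 40 := by
  obtain ⟨ρ, hz, -, hG, hD, -⟩ := hy.split hε
  have hm := hy.cenb
  have h5 : ((Nat.add y.m y.D : ℕ) : ℝ) = (y.m : ℝ) + y.D := Nat.cast_add _ _
  have h6 : ‖(2 : ℂ) ^ 40‖ = 2 ^ 40 := by simp
  rw [h5, le_div_iff₀ (by positivity)]
  have h7 : ‖w‖ * 2 ^ 40 = ‖w * 2 ^ 40‖ := by rw [norm_mul, h6]
  rw [h7, hz]
  have h8 := norm_add_le (evL (cd y.X) ε) (evQ (cd y.X) ε + ρ)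
  have h9 := norm_add_le (toC (cd y.X 0)) (evL (cd y.X) ε + (evQ (cd y.X) ε + ρ))
  linarith

def xQ : XOps := ⟨opsF, ballA, rballA⟩

theorem xlaws : ∃ XL : XLaws xQ, XL.L.okBox = okF := by
  obtain ⟨L, hM, hok⟩ := lawsF_mem
  refine ⟨⟨L, ?_, ?_⟩, hok⟩
  · intro ε hε x u v B hx h _
    rw [hM] at hx ⊢
    intro hok'
    exact add_ball (hx hok') h
  · intro ε hε x y u v w hx hy h _
    rw [hM] at hx hy ⊢
    intro hok'
    have hok2 : (x.ok && y.ok) = true := hok'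
    rw [Bool.and_eq_true] at hok2
    exact add_ball (hx hok2.1) (h.trans (norm_le hε (hy hok2.2)))

theorem cov_Q {nr nd : Nat} {ops : List Op} {chk : List A → Bool}
    (hchk : ∀ m, chk m = true → runX xQ nr ops m = true) (t : IA.T)
    (box : List (Nat × Nat)) (hb : box.length = nr)
    (h : IC.verifyG opsF okF nd chk t box = true) : Cov nd ops box := by
  obtain ⟨XL, hok⟩ := xlaws
  refine cov_of_verify XL hchk t box hb ?_
  rw [hok]
  exact h

theorem covD_Q {nr nd : Nat} {progs : List (List Op)} {chks : List (List A → Bool)}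
    (hchk : List.Forall₂ (fun (ops : List Op) (chk : List A → Bool) =>
      ∀ m, chk m = true → runX xQ nr ops m = true) progs chks) (t : IC.TD)
    (box : List (Nat × Nat)) (hb : box.length = nr)
    (h : IC.verifyD opsF okF nd chks t box = true) : CovD nd progs box := by
  obtain ⟨XL, hok⟩ := xlaws
  refine covD_of_verify XL hchk t box hb ?_
  rw [hok]
  exact h

end Pool.Agent.helper31.IX.QF
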